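import Mathlib

/-!
# Rational points on `Y² = X³ + X` and `Y² = X³ - 4X`, quadratic points on `x⁴ + y⁴ + z⁴ = 0`
-/

set_option autoImplicit false

namespace ParamFour

/-- `Y² = X³ + X` has only the point with `X = 0` -/
theorem curve1 (X Y : ℚ) (h : Y ^ 2 = X ^ 3 + X) : X = 0 := by
  by_contra hX
  have hXpos : 0 < X := by
    rcases lt_or_gt_of_ne hX with h1 | h1
    · exfalso
      have h2 : X * (X ^ 2 + 1) < 0 := mul_neg_of_neg_of_pos h1 (by positivity)
      have h3 : Y ^ 2 = X * (X ^ 2 + 1) := by rw [h]; ring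
      have h4 := sq_nonneg Y
      linarith
    · exact h1
  set r : ℤ := X.num with hr
  set s : ℤ := (X.den : ℤ) with hs
  have hs0 : (s : ℚ) ≠ 0 := by rw [hs]; exact_mod_cast X.den_nz
  have hXrs : X = (r : ℚ) / (s : ℚ) := by
    rw [hr, hs]; exact_mod_cast (Rat.num_div_den X).symm
  have hrpos : 0 < r := Rat.num_pos.2 hXpos
  have hspos : 0 < s := by rw [hs]; exact_mod_cast X.den_pos
  have hcop : IsCoprime r s := by
    rw [Int.isCoprime_iff_gcd_eq_one, hr, hs]
    exact X.reduced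
  have hsq : IsSquare (r * (s * (r ^ 2 + s ^ 2)) : ℤ) := by
    rw [← Rat.isSquare_intCast_iff]
    refine ⟨Y * s ^ 2, ?_⟩
    have : Y * (s : ℚ) ^ 2 * (Y * (s : ℚ) ^ 2) = Y ^ 2 * (s : ℚ) ^ 4 := by ring
    rw [this, h, hXrs]
    push_cast
    field_simp
  obtain ⟨n, hn⟩ := hsq
  have hn' : r * (s * (r ^ 2 + s ^ 2)) = n ^ 2 := by rw [hn]; ring
  have c1 : IsCoprime r (r ^ 2 + s ^ 2) := by
    have : IsCoprime r (s ^ 2) := hcop.pow_right
    rw [show r ^ 2 + s ^ 2 = s ^ 2 + r * r by ring]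
    exact this.add_mul_left_right r
  have c2 : IsCoprime s (r ^ 2 + s ^ 2) := by
    have : IsCoprime s (r ^ 2) := hcop.symm.pow_right
    rw [show r ^ 2 + s ^ 2 = r ^ 2 + s * s by ring]
    exact this.add_mul_left_right s
  have key : ∀ a b c : ℤ, 0 < a → IsCoprime a b → a * b = c ^ 2 → ∃ a0, a = a0 ^ 2 := by
    intro a b c ha hab hc
    obtain ⟨a0, h1 | h1⟩ := Int.sq_of_gcd_eq_one (Int.isCoprime_iff_gcd_eq_one.1 hab) hc
    · exact ⟨a0, h1⟩
    · exfalso
      have := sq_nonneg a0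
      omega
  obtain ⟨u, hu⟩ := key r _ n hrpos (hcop.mul_right c1) hn'
  obtain ⟨v, hv⟩ := key s (r * (r ^ 2 + s ^ 2)) n hspos (hcop.symm.mul_right c2) (by rw [← hn']; ring)
  obtain ⟨w, hw⟩ := key (r ^ 2 + s ^ 2) (r * s) n (by positivity) (c1.symm.mul_right c2.symm)
    (by rw [← hn']; ring)
  have hu0 : u ≠ 0 := by rintro rfl; rw [hu] at hrpos; norm_num at hrpos
  have hv0 : v ≠ 0 := by rintro rfl; rw [hv] at hspos; norm_num at hspos
  apply not_fermat_42 hu0 hv0 (c := w)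
  rw [← hw, hu, hv]
  ring

/-- `Y² = X³ - 4X` has only points with `Y = 0` -/
theorem curve2 (X Y : ℚ) (h : Y ^ 2 = X ^ 3 - 4 * X) : Y = 0 := by
  by_cases hX : X = 0
  · rw [hX] at h
    have : Y ^ 2 = 0 := by rw [h]; norm_num
    exact pow_eq_zero_iff (two_ne_zero) |>.1 this
  · have h1 := curve1 ((X ^ 2 - 4) / (4 * X)) (Y * (X ^ 2 + 4) / (8 * X ^ 2)) (by
      have e : (Y * (X ^ 2 + 4) / (8 * X ^ 2)) ^ 2 = Y ^ 2 * (X ^ 2 + 4) ^ 2 / (64 * X ^ 4) := by
        field_simp
        ring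
      rw [e, h]
      field_simp
      ring)
    have h2 : X ^ 2 - 4 = 0 := by
      rcases div_eq_zero_iff.1 h1 with h2 | h2
      · exact h2
      · exact absurd h2 (mul_ne_zero four_ne_zero hX)
    have h3 : Y ^ 2 = 0 := by
      rw [h]
      linear_combination X * h2
    exact pow_eq_zero_iff (two_ne_zero) |>.1 h3

/-- the equations for a quadratic point on `u² = -(y⁴ + 1)` -/
theorem pair_eqs (p q α β : ℚ) (h1 : 2 * p * q - p ^ 3 + 2 * α * β - α ^ 2 * p = 0)
    (h2 : q ^ 2 - p ^ 2 * q + β ^ 2 - α ^ 2 * q + 1 = 0) : q = 1 ∧ β = 0 ∧ p ^ 2 + α ^ 2 = 2 := by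
  by_cases hp : p = 0
  · exfalso
    subst hp
    have h3 : α * β = 0 := by linear_combination h1 / 2
    rcases mul_eq_zero.1 h3 with h4 | h4
    · subst h4
      nlinarith [sq_nonneg q, sq_nonneg β]
    · subst h4
      have h5 := curve1 q (α * q) (by linear_combination -q * h2)
      subst h5
      norm_num at h2
  · have hm : 0 < p ^ 2 + α ^ 2 := by positivity
    have key : p ^ 2 * ((p ^ 2 + α ^ 2) ^ 2 - 4) = 4 * (p ^ 2 + α ^ 2) * β ^ 2 := by
      have e1 : p * (p ^ 2 + α ^ 2 - 2 * q) = 2 * α * β := by linear_combination -h1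
      have e2 : p ^ 2 * (p ^ 2 + α ^ 2 - 2 * q) ^ 2 = 4 * α ^ 2 * β ^ 2 := by
        calc p ^ 2 * (p ^ 2 + α ^ 2 - 2 * q) ^ 2 = (p * (p ^ 2 + α ^ 2 - 2 * q)) ^ 2 := by ring
          _ = 4 * α ^ 2 * β ^ 2 := by rw [e1]; ring
      linear_combination e2 - 4 * p ^ 2 * h2
    have h3 := curve2 (p ^ 2 + α ^ 2) (2 * β * (p ^ 2 + α ^ 2) / p) (by
      rw [div_pow, div_eq_iff (pow_ne_zero 2 hp)]
      linear_combination -(p ^ 2 + α ^ 2) * key)
    have h4 : β = 0 := by
      rcases div_eq_zero_iff.1 h3 with h4 | h4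
      · rcases mul_eq_zero.1 h4 with h5 | h5
        · linarith
        · exact absurd h5 hm.ne'
      · exact absurd h4 hp
    subst h4
    have h5 : (p ^ 2 + α ^ 2) ^ 2 - 4 = 0 := by
      have : p ^ 2 * ((p ^ 2 + α ^ 2) ^ 2 - 4) = 0 := by rw [key]; ring
      exact (mul_eq_zero.1 this).resolve_left (pow_ne_zero 2 hp)
    have h6 : p ^ 2 + α ^ 2 = 2 := by
      have : (p ^ 2 + α ^ 2 - 2) * (p ^ 2 + α ^ 2 + 2) = 0 := by linear_combination h5
      rcases mul_eq_zero.1 this with h7 | h7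
      · linarith
      · linarith
    refine ⟨?_, rfl, h6⟩
    have h7 : p * (2 * q - 2) = 0 := by linear_combination h1 + p * h6
    rcases mul_eq_zero.1 h7 with h8 | h8
    · exact absurd h8 hp
    · linarith

section field

variable {K : Type*} [Field K] [CharZero K]

/-- `K` is at most quadratic over `ℚ` -/
def Quad (K : Type*) [Field K] : Prop :=
  ∀ y : K, (∀ r : ℚ, y ≠ (r : K)) → ∀ u : K, ∃ α β : ℚ, u = (α : K) * y + (β : K)

theorem indep {y : K} (hy : ∀ r : ℚ, y ≠ (r : K)) {A B : ℚ} (h : (A : K) * y + (B : K) = 0) :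
    A = 0 ∧ B = 0 := by
  have hA : A = 0 := by
    by_contra hA
    apply hy (-B / A)
    have hA' : (A : K) ≠ 0 := by exact_mod_cast hA
    push_cast
    field_simp
    linear_combination h
  refine ⟨hA, ?_⟩
  subst hA
  have : (B : K) = 0 := by simpa using h
  exact_mod_cast this

theorem pair_field (hK : Quad K) {y u : K} (hy : ∀ r : ℚ, y ≠ (r : K)) (h : u ^ 2 + y ^ 4 + 1 = 0) :
    ∃ p α : ℚ, y ^ 2 + (p : K) * y + 1 = 0 ∧ u = (α : K) * y ∧ p ^ 2 + α ^ 2 = 2 := by
  obtain ⟨p', q', h1⟩ := hK y hy (y ^ 2)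
  obtain ⟨α, β, h2⟩ := hK y hy u
  have h3 : ((2 * (-p') * (-q') - (-p') ^ 3 + 2 * α * β - α ^ 2 * (-p') : ℚ) : K) * y +
      (((-q') ^ 2 - (-p') ^ 2 * (-q') + β ^ 2 - α ^ 2 * (-q') + 1 : ℚ) : K) = 0 := by
    push_cast
    have e4 : y ^ 4 = (y ^ 2) ^ 2 := by ring
    rw [e4, h1, h2] at h
    linear_combination h + (-(p' : K) ^ 2 - (α : K) ^ 2) * h1
  obtain ⟨h4, h5⟩ := indep hy h3
  obtain ⟨h6, h7, h8⟩ := pair_eqs (-p') (-q') α β h4 h5
  refine ⟨-p', α, ?_, ?_, h8⟩
  · rw [h1]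
    have : (q' : K) = -1 := by
      have : q' = -1 := by linarith
      rw [this]; push_cast; rfl
    rw [this]
    push_cast
    ring
  · rw [h2, h7]
    simp

theorem sqrt_two (α : ℚ) : α ^ 2 ≠ 2 := by
  intro h
  have h1 : IsSquare (2 : ℚ) := ⟨α, by rw [← h]; ring⟩
  have h2 : IsSquare (2 : ℤ) := by
    rw [← Rat.isSquare_intCast_iff]; exact_mod_cast h1
  obtain ⟨n, hn⟩ := h2
  have h3 : n < 2 := by nlinarith
  have h4 : -2 < n := by nlinarith
  interval_cases n <;> omega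

theorem no_zero (hK : Quad K) {w : K} (h : w ^ 4 + 1 = 0) : False := by
  have hw : ∀ r : ℚ, w ≠ (r : K) := by
    rintro r rfl
    have : (r ^ 4 + 1 : ℚ) = 0 := by exact_mod_cast h
    have h2 : 0 ≤ r ^ 4 := by positivity
    linarith
  obtain ⟨p, α, h1, h2, h3⟩ := pair_field hK (u := 0) hw (by rw [zero_pow two_ne_zero, zero_add, h])
  have h4 : w ≠ 0 := by have := hw 0; simpa using this
  have h5 : (α : K) = 0 := (mul_eq_zero.1 h2.symm).resolve_right h4
  have h6 : α = 0 := by exact_mod_cast h5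
  subst h6
  exact sqrt_two p (by linarith)

theorem quad_point1 (hK : Quad K) {x y : K} (h : x ^ 4 + y ^ 4 + 1 = 0) :
    x ^ 2 + y ^ 2 + 1 = 0 := by
  have hx0 : x ≠ 0 := by
    rintro rfl
    exact no_zero hK (w := y) (by linear_combination h)
  have hy0 : y ≠ 0 := by
    rintro rfl
    exact no_zero hK (w := x) (by linear_combination h)
  have key : ∀ x y : K, x ^ 4 + y ^ 4 + 1 = 0 → y ≠ 0 → ∀ r : ℚ, y ≠ (r : K) := by
    rintro x y h hy r rfl
    by_cases hx : ∀ s : ℚ, x ≠ (s : K)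
    · obtain ⟨p, α, h1, h2, h3⟩ := pair_field hK (y := x) (u := (r : K) ^ 2) hx
        (by linear_combination h)
      have h4 : ((α : ℚ) : K) * x + ((-(r ^ 2) : ℚ) : K) = 0 := by
        push_cast
        linear_combination -h2
      obtain ⟨-, h5⟩ := indep hx h4
      have h6 : r = 0 := by
        have : r ^ 2 = 0 := by linarith
        exact pow_eq_zero_iff (two_ne_zero) |>.1 this
      apply hy
      rw [h6]; simp
    · push Not at hx
      obtain ⟨s, rfl⟩ := hx
      have : (s ^ 4 + r ^ 4 + 1 : ℚ) = 0 := by exact_mod_cast h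
      have h2 : 0 ≤ r ^ 4 := by positivity
      have h3 : 0 ≤ s ^ 4 := by positivity
      linarith
  have hy := key x y h hy0
  have hx := key y x (by linear_combination h) hx0
  obtain ⟨p, α, h1, h2, h3⟩ := pair_field hK (y := y) (u := x ^ 2) hy (by linear_combination h)
  obtain ⟨p', α', h1', h2', h3'⟩ := pair_field hK (y := x) (u := y ^ 2) hx (by linear_combination h)
  -- `(p y + 1)² = α α'² y`
  have e1 : ((p : K) * y + 1) ^ 2 = (α : K) * (α' : K) ^ 2 * y := by
    have e2 : (p : K) * y + 1 = -((α' : K) * x) := by linear_combination h1 - h2'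
    rw [e2]
    linear_combination (α' : K) ^ 2 * h2
  have e3 : ((-p ^ 3 + 2 * p - α * α' ^ 2 : ℚ) : K) * y + ((-p ^ 2 + 1 : ℚ) : K) = 0 := by
    push_cast
    linear_combination e1 - (p : K) ^ 2 * h1
  obtain ⟨e4, e5⟩ := indep hy e3
  have hp2 : p ^ 2 = 1 := by linarith
  have hα2 : α ^ 2 = 1 := by linarith
  have hpα : α = p := by
    have h6 : p = α * α' ^ 2 := by
      have : -p ^ 3 + 2 * p = p := by
        have : p ^ 3 = p := by calc p ^ 3 = p * p ^ 2 := by ring
          _ = p := by rw [hp2, mul_one]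
        rw [this]; ring
      linarith
    have h7 : 0 < α' ^ 2 := by
      rcases (sq_nonneg α').lt_or_eq with h8 | h8
      · exact h8
      · exfalso
        rw [← h8, mul_zero] at h6
        rw [h6] at hp2
        norm_num at hp2
    have h8 : 0 < p * α := by
      have h9 : p * α = α ^ 2 * α' ^ 2 := by rw [h6]; ring
      rw [h9, hα2, one_mul]; exact h7
    have h9 : (p * α) ^ 2 = 1 := by rw [mul_pow, hp2, hα2, one_mul]
    have h10 : p * α = 1 := by
      have : (p * α - 1) * (p * α + 1) = 0 := by linear_combination h9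
      rcases mul_eq_zero.1 this with h11 | h11
      · linarith
      · linarith
    calc α = (p * p) * α := by rw [← pow_two, hp2, one_mul]
      _ = p * (p * α) := by ring
      _ = p := by rw [h10, mul_one]
  rw [hpα] at h2
  linear_combination h2 + h1

theorem quad_point (hK : Quad K) {x y z : K} (h : x ^ 4 + y ^ 4 + z ^ 4 = 0) :
    x ^ 2 + y ^ 2 + z ^ 2 = 0 := by
  by_cases hz : z = 0
  · subst hz
    by_cases hy : y = 0
    · subst hy
      have : x ^ 4 = 0 := by linear_combination h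
      have hx : x = 0 := pow_eq_zero_iff (four_ne_zero) |>.1 this
      subst hx
      ring
    · exfalso
      apply no_zero hK (w := x / y)
      have hy4 : y ^ 4 ≠ 0 := pow_ne_zero 4 hy
      field_simp
      linear_combination h
  · have h1 := quad_point1 hK (x := x / z) (y := y / z) (by
      have hz4 : z ^ 4 ≠ 0 := pow_ne_zero 4 hz
      field_simp
      linear_combination h)
    have hz2 : z ^ 2 ≠ 0 := pow_ne_zero 2 hz
    have h2 : x ^ 2 + y ^ 2 + z ^ 2 = z ^ 2 * ((x / z) ^ 2 + (y / z) ^ 2 + 1) := by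
      field_simp
    rw [h2, h1, mul_zero]

end field

end ParamFour
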