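import Pool.Agent.Lib.MP_624fe1_nt.Arith

/-!
# No parametric solution of `a⁴ + b⁴ + c⁴ + d⁴ = e⁴` of degree two
-/

set_option autoImplicit false

open Polynomial

namespace ParamFour

theorem sum3_zero {b c d : ℚ[X]} (h : b ^ 4 + c ^ 4 + d ^ 4 = 0) : b = 0 := by
  apply Polynomial.funext
  intro r
  have h1 := congrArg (fun p => p.eval r) h
  simp only [eval_add, eval_pow, eval_zero] at h1
  have h2 : 0 ≤ (b.eval r) ^ 4 := by positivity
  have h3 : 0 ≤ (c.eval r) ^ 4 := by positivity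
  have h4 : 0 ≤ (d.eval r) ^ 4 := by positivity
  have h5 : (b.eval r) ^ 4 = 0 := by linarith
  rw [eval_zero]
  exact pow_eq_zero_iff (four_ne_zero) |>.1 h5

theorem root_zero {b c d : ℚ} (h : b ^ 4 + c ^ 4 + d ^ 4 = 0) : b = 0 ∧ c = 0 ∧ d = 0 := by
  have h2 : 0 ≤ b ^ 4 := by positivity
  have h3 : 0 ≤ c ^ 4 := by positivity
  have h4 : 0 ≤ d ^ 4 := by positivity
  refine ⟨?_, ?_, ?_⟩
  · exact pow_eq_zero_iff (four_ne_zero) |>.1 (by linarith : b ^ 4 = 0)
  · exact pow_eq_zero_iff (four_ne_zero) |>.1 (by linarith : c ^ 4 = 0)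
  · exact pow_eq_zero_iff (four_ne_zero) |>.1 (by linarith : d ^ 4 = 0)

theorem quad_adjoin (f : ℚ[X]) (hf : Irreducible f) (h2 : f.natDegree = 2) :
    letI := Fact.mk hf
    Quad (AdjoinRoot f) := by
  have := Fact.mk hf
  intro y hy u
  have hfin : Module.finrank ℚ (AdjoinRoot f) = 2 := by
    rw [(AdjoinRoot.powerBasis hf.ne_zero).finrank, AdjoinRoot.powerBasis_dim, h2]
  have hli : LinearIndependent ℚ ![(1 : AdjoinRoot f), y] := by
    rw [LinearIndependent.pair_iff]
    intro s t hst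
    have ht : t = 0 := by
      by_contra ht
      apply hy (-s / t)
      have ht' : (t : AdjoinRoot f) ≠ 0 := by exact_mod_cast ht
      rw [Rat.smul_one_eq_cast, Rat.smul_def] at hst
      push_cast
      field_simp
      linear_combination hst
    subst ht
    rw [zero_smul, add_zero, Rat.smul_one_eq_cast] at hst
    exact ⟨by exact_mod_cast hst, rfl⟩
  have hspan := hli.span_eq_top_of_card_eq_finrank (by rw [hfin]; rfl)
  have hu : u ∈ Submodule.span ℚ (Set.range ![(1 : AdjoinRoot f), y]) := by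
    rw [hspan]; trivial
  rw [Matrix.range_cons, Matrix.range_cons, Matrix.range_empty, Set.union_empty,
    Set.singleton_union, Submodule.mem_span_pair] at hu
  obtain ⟨s, t, hst⟩ := hu
  refine ⟨t, s, ?_⟩
  rw [← hst, Rat.smul_one_eq_cast, Rat.smul_def, add_comm]

/-- In degree two `e - a` is irreducible and divides `b² + c² + d²`. -/
theorem step {a b c d e : ℚ[X]} (hb0 : b ≠ 0)
    (h : a ^ 4 + b ^ 4 + c ^ 4 + d ^ 4 = e ^ 4) (he : e.natDegree = 2) (ha : a.natDegree ≤ 2)
    (hb : b.natDegree ≤ 2) (hc : c.natDegree ≤ 2) (hd : d.natDegree ≤ 2)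
    (hcop : ∀ r : ℚ, ¬ (a.eval r = 0 ∧ b.eval r = 0 ∧ c.eval r = 0 ∧ d.eval r = 0)) :
    Irreducible (e - a) ∧ (e - a).natDegree = 2 ∧ e - a ∣ b ^ 2 + c ^ 2 + d ^ 2 := by
  have hfac : b ^ 4 + c ^ 4 + d ^ 4 = (e - a) * ((e + a) * (e ^ 2 + a ^ 2)) := by
    linear_combination h
  have hf0 : e - a ≠ 0 := by
    intro h0
    rw [h0, zero_mul] at hfac
    exact hb0 (sum3_zero hfac)
  have he2 : e.coeff 2 ≠ 0 := by
    rw [← he]
    exact leadingCoeff_ne_zero.2 (by rintro rfl; simp at he)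
  have hdeg : (e - a).natDegree = 2 := by
    apply le_antisymm
    · exact (natDegree_sub_le _ _).trans (max_le he.le ha)
    · apply le_natDegree_of_ne_zero
      intro h0
      rw [coeff_sub, sub_eq_zero] at h0
      have h8 := congrArg (fun p => p.coeff (4 * 2)) h
      simp only [coeff_add] at h8
      rw [coeff_pow_of_natDegree_le ha, coeff_pow_of_natDegree_le hb, coeff_pow_of_natDegree_le hc,
        coeff_pow_of_natDegree_le hd, coeff_pow_of_natDegree_le he.le, ← h0] at h8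
      obtain ⟨b2, c2, d2⟩ := root_zero (b := b.coeff 2) (c := c.coeff 2) (d := d.coeff 2)
        (by rw [← h0] at *; linarith)
      have hlow : ∀ x : ℚ[X], x.natDegree ≤ 2 → x.coeff 2 = 0 → x.natDegree ≤ 1 := by
        intro x hx hx2
        rcases Nat.lt_or_ge x.natDegree 2 with h3 | h3
        · omega
        · exfalso
          have h4 : x.natDegree = 2 := by omega
          have h5 : x = 0 := by
            rw [← leadingCoeff_eq_zero, leadingCoeff, h4, hx2]
          rw [h5] at h4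
          simp at h4
      have hb1 := hlow b hb b2
      have hc1 := hlow c hc c2
      have hd1 := hlow d hd d2
      have hp : ∀ x : ℚ[X], x.natDegree ≤ 1 → (x ^ 4).natDegree ≤ 4 := by
        intro x hx
        calc (x ^ 4).natDegree ≤ 4 * x.natDegree := natDegree_pow_le
          _ ≤ 4 := by omega
      have hL : (b ^ 4 + c ^ 4 + d ^ 4).natDegree ≤ 4 :=
        (natDegree_add_le _ _).trans (max_le ((natDegree_add_le _ _).trans
          (max_le (hp b hb1) (hp c hc1))) (hp d hd1))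
      have h1 : 2 ≤ (e + a).natDegree := by
        apply le_natDegree_of_ne_zero
        rw [coeff_add, ← h0]
        intro h9
        apply he2
        linarith
      have h2 : 4 ≤ (e ^ 2 + a ^ 2).natDegree := by
        apply le_natDegree_of_ne_zero
        rw [coeff_add, show (4 : ℕ) = 2 * 2 from rfl, coeff_pow_of_natDegree_le he.le,
          coeff_pow_of_natDegree_le ha, ← h0]
        intro h9
        apply he2
        have : (e.coeff 2) ^ 2 = 0 := by linarith
        exact pow_eq_zero_iff (two_ne_zero) |>.1 this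
      have e1 : e + a ≠ 0 := by intro h9; rw [h9] at h1; simp at h1
      have e2 : e ^ 2 + a ^ 2 ≠ 0 := by intro h9; rw [h9] at h2; simp at h2
      rw [hfac, natDegree_mul hf0 (mul_ne_zero e1 e2), natDegree_mul e1 e2] at hL
      omega
  have hroot : ∀ r : ℚ, ¬ IsRoot (e - a) r := by
    intro r hr
    have h1 : e.eval r = a.eval r := by
      have : (e - a).eval r = 0 := hr
      rw [eval_sub, sub_eq_zero] at this
      exact this
    have h2 := congrArg (fun p => p.eval r) hfac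
    simp only [eval_add, eval_pow, eval_mul, eval_sub, h1, sub_self, zero_mul] at h2
    obtain ⟨b2, c2, d2⟩ := root_zero h2
    have ha2 : a.eval r ≠ 0 := fun h3 => hcop r ⟨h3, b2, c2, d2⟩
    have hdvd : (X - C r) ^ 4 ∣ (e - a) * ((e + a) * (e ^ 2 + a ^ 2)) := by
      rw [← hfac]
      have hx : ∀ x : ℚ[X], x.eval r = 0 → (X - C r) ^ 4 ∣ x ^ 4 :=
        fun x hx => pow_dvd_pow_of_dvd (dvd_iff_isRoot.2 hx) 4
      exact dvd_add (dvd_add (hx b b2) (hx c c2)) (hx d d2)
    have hco : IsCoprime ((X - C r) ^ 4) ((e + a) * (e ^ 2 + a ^ 2)) := by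
      apply IsCoprime.pow_left
      rw [(irreducible_X_sub_C r).coprime_iff_not_dvd, dvd_iff_isRoot, IsRoot]
      simp only [eval_add, eval_pow, eval_mul, h1]
      intro h9
      have : 4 * (a.eval r) ^ 3 = 0 := by linear_combination h9
      have h10 : (a.eval r) ^ 3 = 0 := by linarith
      exact ha2 (pow_eq_zero_iff (three_ne_zero) |>.1 h10)
    have h3 := natDegree_le_of_dvd (hco.dvd_of_dvd_mul_right hdvd) hf0
    rw [natDegree_pow, natDegree_X_sub_C, hdeg] at h3
    omega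
  have hirr : Irreducible (e - a) :=
    irreducible_of_degree_le_three_of_not_isRoot (by rw [hdeg]; simp) hroot
  refine ⟨hirr, hdeg, ?_⟩
  have := Fact.mk hirr
  have hQ := quad_adjoin (e - a) hirr hdeg
  rw [← AdjoinRoot.mk_eq_zero]
  have h4 : (AdjoinRoot.mk (e - a) b) ^ 4 + (AdjoinRoot.mk (e - a) c) ^ 4 +
      (AdjoinRoot.mk (e - a) d) ^ 4 = 0 := by
    rw [← map_pow, ← map_pow, ← map_pow, ← map_add, ← map_add, AdjoinRoot.mk_eq_zero, hfac]
    exact dvd_mul_right _ _
  have h5 := quad_point hQ h4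
  rw [map_add, map_add, map_pow, map_pow, map_pow]
  exact h5

/-- combination of `e - a` and `e + a` -/
theorem step2 {a b c d e : ℚ[X]} (ha0 : a ≠ 0) (hb0 : b ≠ 0)
    (h : a ^ 4 + b ^ 4 + c ^ 4 + d ^ 4 = e ^ 4) (he : e.natDegree = 2) (ha : a.natDegree ≤ 2)
    (hb : b.natDegree ≤ 2) (hc : c.natDegree ≤ 2) (hd : d.natDegree ≤ 2)
    (hcop : ∀ r : ℚ, ¬ (a.eval r = 0 ∧ b.eval r = 0 ∧ c.eval r = 0 ∧ d.eval r = 0)) :
    (∃ κ : ℚ, b ^ 2 + c ^ 2 + d ^ 2 = C κ * (e ^ 2 - a ^ 2)) ∨ ∃ σ : ℚ, a = C σ * e := by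
  obtain ⟨i1, d1, v1⟩ := step hb0 h he ha hb hc hd hcop
  obtain ⟨i2, d2, v2⟩ := step (a := -a) hb0 (by linear_combination h) he
    (by rw [natDegree_neg]; exact ha) hb hc hd (fun r hr => hcop r
      ⟨by have := hr.1; rw [eval_neg, neg_eq_zero] at this; exact this, hr.2⟩)
  rw [sub_neg_eq_add] at i2 d2 v2
  have he0 : e ≠ 0 := by rintro rfl; simp at he
  by_cases hco : IsCoprime (e - a) (e + a)
  · left
    obtain ⟨g, hg⟩ := hco.mul_dvd v1 v2
    have h3 : (e - a) * (e + a) = e ^ 2 - a ^ 2 := by ring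
    have hT0 : b ^ 2 + c ^ 2 + d ^ 2 ≠ 0 := by
      intro h0
      apply hb0
      apply Polynomial.funext
      intro r
      have h1 := congrArg (fun p => p.eval r) h0
      simp only [eval_add, eval_pow, eval_zero] at h1
      rw [eval_zero]
      have h5 : (b.eval r) ^ 2 = 0 := by
        have := sq_nonneg (b.eval r); have := sq_nonneg (c.eval r); have := sq_nonneg (d.eval r)
        linarith
      exact pow_eq_zero_iff (two_ne_zero) |>.1 h5
    have hg0 : g ≠ 0 := by rintro rfl; rw [mul_zero] at hg; exact hT0 hg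
    have hp : ∀ x : ℚ[X], x.natDegree ≤ 2 → (x ^ 2).natDegree ≤ 4 := by
      intro x hx
      calc (x ^ 2).natDegree ≤ 2 * x.natDegree := natDegree_pow_le
        _ ≤ 4 := by omega
    have hL : (b ^ 2 + c ^ 2 + d ^ 2).natDegree ≤ 4 :=
      (natDegree_add_le _ _).trans (max_le ((natDegree_add_le _ _).trans
        (max_le (hp b hb) (hp c hc))) (hp d hd))
    rw [hg, natDegree_mul (mul_ne_zero i1.ne_zero i2.ne_zero) hg0,
      natDegree_mul i1.ne_zero i2.ne_zero, d1, d2] at hL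
    have h4 : g = C (g.coeff 0) := eq_C_of_natDegree_eq_zero (by omega)
    refine ⟨g.coeff 0, ?_⟩
    rw [hg, ← h3, ← h4]
    ring
  · right
    have hdvd : e - a ∣ e + a := by
      by_contra h0
      exact hco (i1.coprime_iff_not_dvd.2 h0)
    obtain ⟨g, hg⟩ := hdvd
    have hg0 : g ≠ 0 := by rintro rfl; rw [mul_zero] at hg; rw [hg] at d2; simp at d2
    have h5 := d2
    rw [hg, natDegree_mul i1.ne_zero hg0, d1] at h5
    have h4 : g = C (g.coeff 0) := eq_C_of_natDegree_eq_zero (by omega)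
    set r := g.coeff 0 with hr
    rw [h4] at hg
    -- `e + a = r (e - a)`
    have hr1 : r + 1 ≠ 0 := by
      intro h6
      have h7 : r = -1 := by linarith
      rw [h7] at hg
      apply he0
      have : 2 * e = 0 := by
        rw [C_neg, C_1] at hg
        linear_combination hg
      exact (mul_eq_zero.1 this).resolve_left two_ne_zero
    refine ⟨(r - 1) / (r + 1), ?_⟩
    have h8 : C (r + 1) * a = C (r - 1) * e := by
      rw [C_add, C_sub, C_1]
      linear_combination hg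
    have h9 : C ((r - 1) / (r + 1)) = C (r - 1) * C (r + 1)⁻¹ := by
      rw [← C_mul, div_eq_mul_inv]
    have h10 : C (r + 1) * C (r + 1)⁻¹ = (1 : ℚ[X]) := by
      rw [← C_mul, mul_inv_cancel₀ hr1, C_1]
    rw [h9]
    linear_combination C (r + 1)⁻¹ * h8 - a * h10

/-- `a² ` is a combination of `S` and `e²` -/
theorem step3 {a b c d e : ℚ[X]} (ha0 : a ≠ 0) (hb0 : b ≠ 0)
    (h : a ^ 4 + b ^ 4 + c ^ 4 + d ^ 4 = e ^ 4) (he : e.natDegree = 2) (ha : a.natDegree ≤ 2)
    (hb : b.natDegree ≤ 2) (hc : c.natDegree ≤ 2) (hd : d.natDegree ≤ 2)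
    (hcop : ∀ r : ℚ, ¬ (a.eval r = 0 ∧ b.eval r = 0 ∧ c.eval r = 0 ∧ d.eval r = 0)) :
    ∃ l μ : ℚ, a ^ 2 = C l * (a ^ 2 + b ^ 2 + c ^ 2 + d ^ 2) + C μ * e ^ 2 := by
  rcases step2 ha0 hb0 h he ha hb hc hd hcop with ⟨κ, hκ⟩ | ⟨σ, hσ⟩
  · have hκ1 : 1 - κ ≠ 0 := by
      intro h0
      have h1 : κ = 1 := by linarith
      rw [h1, C_1, one_mul] at hκ
      have h2 : a * b = 0 := by
        apply Polynomial.funext
        intro r
        have h3 := congrArg (fun p => p.eval r) hκ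
        have h4 := congrArg (fun p => p.eval r) h
        simp only [eval_add, eval_pow, eval_sub] at h3 h4
        rw [eval_mul, eval_zero]
        set A := a.eval r
        set B := b.eval r
        set C' := c.eval r
        set D := d.eval r
        set E := e.eval r
        have h5 : E ^ 2 = A ^ 2 + B ^ 2 + C' ^ 2 + D ^ 2 := by linarith
        have h6 : A ^ 4 + B ^ 4 + C' ^ 4 + D ^ 4 = (A ^ 2 + B ^ 2 + C' ^ 2 + D ^ 2) ^ 2 := by
          rw [h4, ← h5]; ring
        have h7 : (A * B) ^ 2 = 0 := by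
          have p1 := sq_nonneg (A * B); have p2 := sq_nonneg (A * C'); have p3 := sq_nonneg (A * D)
          have p4 := sq_nonneg (B * C'); have p5 := sq_nonneg (B * D); have p6 := sq_nonneg (C' * D)
          nlinarith
        exact pow_eq_zero_iff (two_ne_zero) |>.1 h7
      exact mul_ne_zero ha0 hb0 h2
    refine ⟨(1 - κ)⁻¹, -κ * (1 - κ)⁻¹, ?_⟩
    have h10 : C (1 - κ) * C (1 - κ)⁻¹ = (1 : ℚ[X]) := by
      rw [← C_mul, mul_inv_cancel₀ hκ1, C_1]
    rw [C_sub, C_1] at h10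
    rw [C_mul, C_neg]
    linear_combination -C (1 - κ)⁻¹ * hκ - a ^ 2 * h10
  · refine ⟨0, σ ^ 2, ?_⟩
    rw [C_0, zero_mul, zero_add, C_pow]
    rw [hσ]
    ring

/-- a square equal to a constant times a square -/
theorem sq_const {a e : ℚ[X]} (he0 : e ≠ 0) {τ : ℚ} (h : a ^ 2 = C τ * e ^ 2) :
    ∃ σ : ℚ, a = C σ * e := by
  by_cases ha0 : a = 0
  · exact ⟨0, by rw [ha0, C_0, zero_mul]⟩
  · have h1 := congrArg leadingCoeff h
    rw [leadingCoeff_pow, leadingCoeff_mul, leadingCoeff_C, leadingCoeff_pow] at h1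
    have hl : e.leadingCoeff ≠ 0 := leadingCoeff_ne_zero.2 he0
    set δ := a.leadingCoeff / e.leadingCoeff with hδ
    have h2 : τ = δ ^ 2 := by
      rw [hδ, div_pow, eq_div_iff (pow_ne_zero 2 hl), h1]
    have h3 : (a - C δ * e) * (a + C δ * e) = 0 := by
      rw [h2, C_pow] at h
      linear_combination h
    rcases mul_eq_zero.1 h3 with h4 | h4
    · exact ⟨δ, by linear_combination h4⟩
    · exact ⟨-δ, by rw [C_neg]; linear_combination h4⟩

theorem no_deg_two {a b c d e : ℚ[X]} (ha0 : a ≠ 0) (hb0 : b ≠ 0) (hc0 : c ≠ 0) (hd0 : d ≠ 0)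
    (h : a ^ 4 + b ^ 4 + c ^ 4 + d ^ 4 = e ^ 4) (he : e.natDegree = 2) (ha : a.natDegree ≤ 2)
    (hb : b.natDegree ≤ 2) (hc : c.natDegree ≤ 2) (hd : d.natDegree ≤ 2)
    (hcop : ∀ r : ℚ, ¬ (a.eval r = 0 ∧ b.eval r = 0 ∧ c.eval r = 0 ∧ d.eval r = 0)) :
    ∃ x y z w : ℚ, a = C x * e ∧ b = C y * e ∧ c = C z * e ∧ d = C w * e := by
  have he0 : e ≠ 0 := by rintro rfl; simp at he
  obtain ⟨l1, m1, E1⟩ := step3 ha0 hb0 h he ha hb hc hd hcop
  obtain ⟨l2, m2, E2⟩ := step3 (a := b) (b := a) (c := c) (d := d) hb0 ha0 (by linear_combination h)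
    he hb ha hc hd (fun r hr => hcop r ⟨hr.2.1, hr.1, hr.2.2.1, hr.2.2.2⟩)
  obtain ⟨l3, m3, E3⟩ := step3 (a := c) (b := a) (c := b) (d := d) hc0 ha0 (by linear_combination h)
    he hc ha hb hd (fun r hr => hcop r ⟨hr.2.1, hr.2.2.1, hr.1, hr.2.2.2⟩)
  obtain ⟨l4, m4, E4⟩ := step3 (a := d) (b := a) (c := b) (d := c) hd0 ha0 (by linear_combination h)
    he hd ha hb hc (fun r hr => hcop r ⟨hr.2.1, hr.2.2.1, hr.2.2.2, hr.1⟩)
  set S := a ^ 2 + b ^ 2 + c ^ 2 + d ^ 2 with hS
  rw [show b ^ 2 + a ^ 2 + c ^ 2 + d ^ 2 = S by rw [hS]; ring] at E2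
  rw [show c ^ 2 + a ^ 2 + b ^ 2 + d ^ 2 = S by rw [hS]; ring] at E3
  rw [show d ^ 2 + a ^ 2 + b ^ 2 + c ^ 2 = S by rw [hS]; ring] at E4
  -- `S` is a multiple of `e²`, or all `l` are zero
  have hmain : ∃ t1 t2 t3 t4 : ℚ, a ^ 2 = C t1 * e ^ 2 ∧ b ^ 2 = C t2 * e ^ 2 ∧
      c ^ 2 = C t3 * e ^ 2 ∧ d ^ 2 = C t4 * e ^ 2 := by
    by_cases hL : l1 ^ 2 + l2 ^ 2 + l3 ^ 2 + l4 ^ 2 = 0
    · have z1 : l1 = 0 := by
        have := sq_nonneg l1; have := sq_nonneg l2; have := sq_nonneg l3; have := sq_nonneg l4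
        exact pow_eq_zero_iff (two_ne_zero) |>.1 (by linarith : l1 ^ 2 = 0)
      have z2 : l2 = 0 := by
        have := sq_nonneg l1; have := sq_nonneg l2; have := sq_nonneg l3; have := sq_nonneg l4
        exact pow_eq_zero_iff (two_ne_zero) |>.1 (by linarith : l2 ^ 2 = 0)
      have z3 : l3 = 0 := by
        have := sq_nonneg l1; have := sq_nonneg l2; have := sq_nonneg l3; have := sq_nonneg l4
        exact pow_eq_zero_iff (two_ne_zero) |>.1 (by linarith : l3 ^ 2 = 0)
      have z4 : l4 = 0 := by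
        have := sq_nonneg l1; have := sq_nonneg l2; have := sq_nonneg l3; have := sq_nonneg l4
        exact pow_eq_zero_iff (two_ne_zero) |>.1 (by linarith : l4 ^ 2 = 0)
      refine ⟨m1, m2, m3, m4, ?_, ?_, ?_, ?_⟩
      · rw [E1, z1, C_0]; ring
      · rw [E2, z2, C_0]; ring
      · rw [E3, z3, C_0]; ring
      · rw [E4, z4, C_0]; ring
    · set L := l1 ^ 2 + l2 ^ 2 + l3 ^ 2 + l4 ^ 2 with hLdef
      set B := l1 * m1 + l2 * m2 + l3 * m3 + l4 * m4 with hB
      set D := m1 ^ 2 + m2 ^ 2 + m3 ^ 2 + m4 ^ 2 - 1 with hD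
      have hq : C L * S ^ 2 + 2 * C B * S * e ^ 2 + C D * e ^ 4 = 0 := by
        have h4 : a ^ 4 + b ^ 4 + c ^ 4 + d ^ 4 = (C l1 * S + C m1 * e ^ 2) ^ 2 +
            (C l2 * S + C m2 * e ^ 2) ^ 2 + (C l3 * S + C m3 * e ^ 2) ^ 2 +
            (C l4 * S + C m4 * e ^ 2) ^ 2 := by
          rw [← E1, ← E2, ← E3, ← E4]; ring
        rw [h] at h4
        rw [hLdef, hB, hD]
        simp only [C_add, C_sub, C_mul, C_pow, C_1]
        linear_combination -h4
      have hq2 : (C L * S + C B * e ^ 2) ^ 2 = C (B ^ 2 - L * D) * (e ^ 2) ^ 2 := by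
        simp only [C_sub, C_mul, C_pow]
        linear_combination C L * hq
      obtain ⟨σ, hσ⟩ := sq_const (pow_ne_zero 2 he0) hq2
      have hS' : ∃ ρ : ℚ, S = C ρ * e ^ 2 := by
        refine ⟨(σ - B) * L⁻¹, ?_⟩
        have h10 : C L * C L⁻¹ = (1 : ℚ[X]) := by
          rw [← C_mul, mul_inv_cancel₀ hL, C_1]
        rw [C_mul, C_sub]
        linear_combination C L⁻¹ * hσ - S * h10
      obtain ⟨ρ, hρ⟩ := hS'
      refine ⟨l1 * ρ + m1, l2 * ρ + m2, l3 * ρ + m3, l4 * ρ + m4, ?_, ?_, ?_, ?_⟩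
      · rw [E1, hρ, C_add, C_mul]; ring
      · rw [E2, hρ, C_add, C_mul]; ring
      · rw [E3, hρ, C_add, C_mul]; ring
      · rw [E4, hρ, C_add, C_mul]; ring
  obtain ⟨t1, t2, t3, t4, F1, F2, F3, F4⟩ := hmain
  obtain ⟨x, hx⟩ := sq_const he0 F1
  obtain ⟨y, hy⟩ := sq_const he0 F2
  obtain ⟨z, hz⟩ := sq_const he0 F3
  obtain ⟨w, hw⟩ := sq_const he0 F4
  exact ⟨x, y, z, w, hx, hy, hz, hw⟩

/-- a real polynomial of odd degree has a root -/
theorem odd_root : ∀ (n : ℕ) (p : ℝ[X]), p.natDegree = n → Odd n → ∃ r, p.IsRoot r := by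
  intro n
  induction n using Nat.strong_induction_on with
  | _ n ih =>
    intro p hp hn
    have hp0 : p ≠ 0 := by rintro rfl; rw [natDegree_zero] at hp; rw [← hp] at hn; exact absurd hn (by decide)
    have hpu : ¬ IsUnit p := by
      intro hu
      rw [natDegree_eq_zero_of_isUnit hu] at hp
      rw [← hp] at hn; exact absurd hn (by decide)
    obtain ⟨q, hq, p', rfl⟩ := WfDvdMonoid.exists_irreducible_factor hpu hp0
    have hp'0 : p' ≠ 0 := right_ne_zero_of_mul hp0
    rw [natDegree_mul hq.ne_zero hp'0] at hp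
    have h2 := hq.natDegree_le_two
    have h3 : 0 < q.natDegree := hq.natDegree_pos
    rcases Nat.lt_or_ge q.natDegree 2 with h4 | h4
    · obtain ⟨r, hr⟩ := exists_root_of_degree_eq_one (p := q) (by
        rw [degree_eq_natDegree hq.ne_zero]
        have : q.natDegree = 1 := by omega
        rw [this]; rfl)
      exact ⟨r, by rw [IsRoot, eval_mul, hr, zero_mul]⟩
    · obtain ⟨r, hr⟩ := ih p'.natDegree (by omega) p' rfl (by
        have : n = p'.natDegree + 2 := by omega
        rw [this] at hn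
        rw [Nat.odd_add] at hn
        exact hn.2 even_two)
      exact ⟨r, by rw [IsRoot, eval_mul, hr, mul_zero]⟩

theorem deg_le {a b c d e : ℚ[X]} (h : a ^ 4 + b ^ 4 + c ^ 4 + d ^ 4 = e ^ 4) :
    a.natDegree ≤ e.natDegree := by
  by_contra hlt
  push Not at hlt
  obtain ⟨M, hM⟩ : ∃ M, M = max (max a.natDegree b.natDegree) (max c.natDegree d.natDegree) :=
    ⟨_, rfl⟩
  have ha : a.natDegree ≤ M := by rw [hM]; simp
  have hb : b.natDegree ≤ M := by rw [hM]; simp
  have hc : c.natDegree ≤ M := by rw [hM]; simp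
  have hd : d.natDegree ≤ M := by rw [hM]; simp
  have heM : e.natDegree < M := lt_of_lt_of_le hlt ha
  have h8 := congrArg (fun p => p.coeff (4 * M)) h
  simp only [coeff_add] at h8
  rw [coeff_pow_of_natDegree_le ha, coeff_pow_of_natDegree_le hb, coeff_pow_of_natDegree_le hc,
    coeff_pow_of_natDegree_le hd, coeff_pow_of_natDegree_le heM.le,
    coeff_eq_zero_of_natDegree_lt heM] at h8
  have p1 : 0 ≤ (a.coeff M) ^ 4 := by positivity
  have p2 : 0 ≤ (b.coeff M) ^ 4 := by positivity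
  have p3 : 0 ≤ (c.coeff M) ^ 4 := by positivity
  have p4 : 0 ≤ (d.coeff M) ^ 4 := by positivity
  have key : ∀ x : ℚ[X], (x.coeff M) ^ 4 = 0 → x.natDegree ≠ M := by
    intro x hx hxM
    have h1 : x.coeff M = 0 := pow_eq_zero_iff (four_ne_zero) |>.1 hx
    have h2 : x = 0 := by rw [← leadingCoeff_eq_zero, leadingCoeff, hxM, h1]
    rw [h2, natDegree_zero] at hxM
    omega
  have k1 := key a (by linarith)
  have k2 := key b (by linarith)
  have k3 := key c (by linarith)
  have k4 := key d (by linarith)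
  omega

theorem no_common_root {a b c d e : ℚ[X]}
    (hcop : ∀ p : ℚ[X], p ∣ a → p ∣ b → p ∣ c → p ∣ d → p ∣ e → IsUnit p) (r : ℝ)
    (h1 : aeval r a = 0) (h2 : aeval r b = 0) (h3 : aeval r c = 0) (h4 : aeval r d = 0)
    (h5 : aeval r e = 0) : False := by
  set I : Ideal ℚ[X] := Ideal.span {a, b, c, d, e} with hI
  set g := Submodule.IsPrincipal.generator I with hg
  have hIg : I = Ideal.span {g} := (Ideal.span_singleton_generator I).symm
  have hmem : ∀ x ∈ I, g ∣ x := by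
    intro x hx
    rw [hIg, Ideal.mem_span_singleton] at hx
    exact hx
  have hgu : IsUnit g := by
    apply hcop
    · exact hmem a (Ideal.subset_span (by simp))
    · exact hmem b (Ideal.subset_span (by simp))
    · exact hmem c (Ideal.subset_span (by simp))
    · exact hmem d (Ideal.subset_span (by simp))
    · exact hmem e (Ideal.subset_span (by simp))
  have h1I : (1 : ℚ[X]) ∈ I := by
    rw [hIg, Ideal.mem_span_singleton]
    exact hgu.dvd
  have hle : I ≤ RingHom.ker (aeval r : ℚ[X] →ₐ[ℚ] ℝ) := by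
    rw [hI, Ideal.span_le]
    intro x hx
    simp only [Set.mem_insert_iff, Set.mem_singleton_iff] at hx
    rcases hx with rfl | rfl | rfl | rfl | rfl
    · exact h1
    · exact h2
    · exact h3
    · exact h4
    · exact h5
  have := hle h1I
  rw [RingHom.mem_ker, map_one] at this
  exact one_ne_zero this

theorem main {a b c d e : ℚ[X]} (ha0 : a ≠ 0) (hb0 : b ≠ 0) (hc0 : c ≠ 0) (hd0 : d ≠ 0)
    (h : a ^ 4 + b ^ 4 + c ^ 4 + d ^ 4 = e ^ 4)
    (hcop : ∀ p : ℚ[X], p ∣ a → p ∣ b → p ∣ c → p ∣ d → p ∣ e → IsUnit p)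
    (hn : ¬ ∃ (p : ℚ[X]) (x y z w v : ℚ), a = C x * p ∧ b = C y * p ∧ c = C z * p ∧
      d = C w * p ∧ e = C v * p) :
    (a.natDegree ≤ e.natDegree ∧ b.natDegree ≤ e.natDegree ∧ c.natDegree ≤ e.natDegree ∧
      d.natDegree ≤ e.natDegree) ∧ Even e.natDegree ∧ 4 ≤ e.natDegree := by
  have ha := deg_le h
  have hb := deg_le (a := b) (b := a) (c := c) (d := d) (e := e) (by linear_combination h)
  have hc := deg_le (a := c) (b := a) (c := b) (d := d) (e := e) (by linear_combination h)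
  have hd := deg_le (a := d) (b := a) (c := b) (d := c) (e := e) (by linear_combination h)
  have hroot : ∀ r : ℝ, aeval r e ≠ 0 := by
    intro r hr
    have h1 := congrArg (fun p => aeval r p) h
    simp only [map_add, map_pow, hr] at h1
    have p1 : 0 ≤ (aeval r a) ^ 4 := by positivity
    have p2 : 0 ≤ (aeval r b) ^ 4 := by positivity
    have p3 : 0 ≤ (aeval r c) ^ 4 := by positivity
    have p4 : 0 ≤ (aeval r d) ^ 4 := by positivity
    refine no_common_root hcop r ?_ ?_ ?_ ?_ hr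
    · exact pow_eq_zero_iff (four_ne_zero) |>.1 (by linarith : (aeval r a) ^ 4 = 0)
    · exact pow_eq_zero_iff (four_ne_zero) |>.1 (by linarith : (aeval r b) ^ 4 = 0)
    · exact pow_eq_zero_iff (four_ne_zero) |>.1 (by linarith : (aeval r c) ^ 4 = 0)
    · exact pow_eq_zero_iff (four_ne_zero) |>.1 (by linarith : (aeval r d) ^ 4 = 0)
  have heven : Even e.natDegree := by
    by_contra hodd
    rw [Nat.not_even_iff_odd] at hodd
    obtain ⟨r, hr⟩ := odd_root e.natDegree (e.map (algebraMap ℚ ℝ)) (natDegree_map _) hodd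
    apply hroot r
    rw [← eval_map_algebraMap]
    exact hr
  refine ⟨⟨ha, hb, hc, hd⟩, heven, ?_⟩
  by_contra hlt
  push Not at hlt
  obtain ⟨k, hk⟩ := heven
  have hcases : e.natDegree = 0 ∨ e.natDegree = 2 := by omega
  rcases hcases with h0 | h2
  · apply hn
    rw [h0] at ha hb hc hd
    refine ⟨1, a.coeff 0, b.coeff 0, c.coeff 0, d.coeff 0, e.coeff 0, ?_, ?_, ?_, ?_, ?_⟩
    · rw [mul_one]; exact eq_C_of_natDegree_le_zero ha
    · rw [mul_one]; exact eq_C_of_natDegree_le_zero hb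
    · rw [mul_one]; exact eq_C_of_natDegree_le_zero hc
    · rw [mul_one]; exact eq_C_of_natDegree_le_zero hd
    · rw [mul_one]; exact eq_C_of_natDegree_le_zero h0.le
  · rw [h2] at ha hb hc hd
    obtain ⟨x, y, z, w, e1, e2, e3, e4⟩ := no_deg_two ha0 hb0 hc0 hd0 h h2 ha hb hc hd (by
      rintro r ⟨r1, r2, r3, r4⟩
      have hcast : ∀ p : ℚ[X], p.eval r = 0 → aeval (r : ℝ) p = 0 := by
        intro p hp
        have : aeval (r : ℝ) p = ((p.eval r : ℚ) : ℝ) := by
          have h5 := Polynomial.aeval_algebraMap_apply ℝ r p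
          simpa [Polynomial.coe_aeval_eq_eval] using h5
        rw [this, hp, Rat.cast_zero]
      have h5 : e.eval r = 0 := by
        have h1 := congrArg (fun p => p.eval r) h
        simp only [eval_add, eval_pow, r1, r2, r3, r4] at h1
        have : (e.eval r) ^ 4 = 0 := by rw [← h1]; norm_num
        exact pow_eq_zero_iff (four_ne_zero) |>.1 this
      exact no_common_root hcop r (hcast a r1) (hcast b r2) (hcast c r3) (hcast d r4)
        (hcast e h5))
    exact hn ⟨e, x, y, z, w, 1, e1, e2, e3, e4, by rw [C_1, one_mul]⟩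

end ParamFour
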